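import Mathlib
import Pool.Agent.Helper42.PerimeterFive
import Pool.Agent.Helper36.Disk.Final
import Pool.Agent.Helper17.Disk.StatementM

/-!
Perimeter of unions of unit disks under contraction of the centres: property `(P_n)` holds for
`1 ≤ n ≤ 4` and fails for every `n ≥ 5`, so that the number `N` of the question is `4`.
-/

open MeasureTheory Set Metric
open scoped ENNReal MeasureTheory

namespace Pool.Agent.Results.MP_3836fe_co.LargestN

/-- The Euclidean plane. -/
abbrev Plane : Type := EuclideanSpace ℝ (Fin 2)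

/-- The perimeter of a set: the one-dimensional Hausdorff measure of its topological boundary. -/
noncomputable def perimeter (S : Set Plane) : ℝ≥0∞ := μH[1] (frontier S)

/-- Property `(P_n)`. -/
def PropP (n : ℕ) : Prop :=
  ∀ p q : Fin n → Plane, (∀ i j, dist (q i) (q j) ≤ dist (p i) (p j)) →
    perimeter (⋃ i, closedBall (q i) 1) ≤ perimeter (⋃ i, closedBall (p i) 1)

/-- the isometry between `ℂ` and the plane -/
noncomputable def e : ℂ ≃ₗᵢ[ℝ] Plane := Complex.orthonormalBasisOneI.repr

lemma perimeter_e {ι : Type*} (c : ι → ℂ) :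
    perimeter (⋃ i, closedBall (e (c i)) 1) = μH[1] (frontier (⋃ i, closedBall (c i) 1)) := by
  have h1 : (⋃ i, closedBall (e (c i)) 1) = e.toIsometryEquiv '' (⋃ i, closedBall (c i) 1) := by
    rw [Set.image_iUnion]
    refine Set.iUnion_congr fun i => ?_
    rw [IsometryEquiv.image_closedBall]
    rfl
  have h2 : frontier (e.toIsometryEquiv '' (⋃ i, closedBall (c i) 1)) =
      e.toIsometryEquiv '' frontier (⋃ i, closedBall (c i) 1) := by
    rw [← IsometryEquiv.coe_toHomeomorph, Homeomorph.image_frontier]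
  rw [perimeter, h1, h2, IsometryEquiv.hausdorffMeasure_image]

/-- `(P_n)` fails for every `n ≥ 5`. -/
lemma not_PropP (n : ℕ) (hn : 5 ≤ n) : ¬ PropP n := by
  intro hP
  let f : Fin n → Fin 5 := fun i => if h : (i : ℕ) < 5 then ⟨i, h⟩ else 0
  have hf : Function.Surjective f := by
    intro j
    refine ⟨⟨j, lt_of_lt_of_le j.2 hn⟩, ?_⟩
    simp [f]
  have key : ∀ c : Fin 5 → ℂ, (⋃ i : Fin n, closedBall (e (c (f i))) (1:ℝ)) =
      ⋃ j : Fin 5, closedBall (e (c j)) (1:ℝ) := by
    intro c
    exact hf.iUnion_comp (fun j => closedBall (e (c j)) (1:ℝ))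
  have h := hP (fun i => e (Helper42.Arc.exP (f i))) (fun i => e (Helper42.Arc.exQ (f i))) ?_
  · rw [key, key, perimeter_e, perimeter_e] at h
    exact absurd h (not_le.2 Helper42.Arc.exP_lt_exQ)
  · intro i j
    rw [LinearIsometryEquiv.dist_map, LinearIsometryEquiv.dist_map]
    exact Helper42.Arc.exPQ_contraction (f i) (f j)

/-- `(P_4)` holds. -/
lemma PropP_four : PropP 4 := by
  intro p q h
  have hp : p = fun i => e (e.symm (p i)) := by funext i; simp
  have hq : q = fun i => e (e.symm (q i)) := by funext i; simp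
  rw [hp, hq, perimeter_e, perimeter_e]
  refine Pool.Agent.Helper36.Disk.P4_of_M (Pool.Agent.Helper17.Disk.statementM Pool.Agent.Helper36.Disk.se) _ _ fun i j => ?_
  simpa using h i j

/-- `(P_n)` holds for `1 ≤ n ≤ 4`. -/
lemma PropP_le (n : ℕ) (h1 : 1 ≤ n) (h4 : n ≤ 4) : PropP n := by
  intro p q h
  let f : Fin 4 → Fin n := fun i => if h : (i : ℕ) < n then ⟨i, h⟩ else ⟨0, h1⟩
  have hf : Function.Surjective f := by
    intro j
    refine ⟨⟨j, lt_of_lt_of_le j.2 h4⟩, ?_⟩
    simp [f]
  have key : ∀ c : Fin n → Plane, (⋃ i : Fin 4, closedBall (c (f i)) (1:ℝ)) =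
      ⋃ j : Fin n, closedBall (c j) (1:ℝ) := by
    intro c
    exact hf.iUnion_comp (fun j => closedBall (c j) (1:ℝ))
  have h2 := PropP_four (fun i => p (f i)) (fun i => q (f i)) (fun i j => h (f i) (f j))
  rwa [key, key] at h2

/-- `(P_n)` holds exactly for `n ≤ 4`, so the largest `n` for which `(P_n)` holds is `4`. -/
theorem result : (∀ n : ℕ, 1 ≤ n → (PropP n ↔ n ≤ 4)) ∧ IsGreatest {n : ℕ | 1 ≤ n ∧ PropP n} 4 := by
  have h : ∀ n : ℕ, 1 ≤ n → (PropP n ↔ n ≤ 4) := by
    intro n hn
    constructor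
    · intro hP
      by_contra hc
      exact not_PropP n (by omega) hP
    · exact PropP_le n hn
  refine ⟨h, ⟨by norm_num, PropP_four⟩, fun n hn => (h n hn.1).1 hn.2⟩

end Pool.Agent.Results.MP_3836fe_co.LargestN
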